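import Pool.Agent.V7H68.HF.Spec0

set_option autoImplicit false

/-!
# Exceptional levels are rare for almost every `t` (job FQ1 of the project HF of helper68)
-/

namespace Pool.Agent.V7H33.HF

open Finset Real MeasureTheory Filter Pool.Agent.V7H68.HF
open scoped ENNReal

theorem t_FQ1 : S_FQ1 := by
  classical
  intro d b hb C Λ p col E hE hvol hdens
  obtain ⟨x, hx⟩ : ∃ x : (l : ℕ) → Fin (p l) → ℕ → ℝ, x = fun l a (N : ℕ) => (N:ℝ)⁻¹ *
    ((((range N).filter fun k => col l k = a).card : ℕ) : ℝ) := ⟨_, rfl⟩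
  have hx0 : ∀ l a N, 0 ≤ x l a N := by
    intro l a N
    rw [hx]
    positivity
  have hx1 : ∀ l a N, x l a N ≤ 1 := by
    intro l a N
    rw [hx]
    simp only
    have h1 : ((((range N).filter fun k => col l k = a).card : ℕ) : ℝ) ≤ N := by
      have h2 := card_filter_le (range N) (fun k => col l k = a)
      rw [card_range] at h2
      exact_mod_cast h2
    rcases Nat.eq_zero_or_pos N with h | h
    · rw [h]; simp
    · have hN : (0 : ℝ) < N := by exact_mod_cast h
      rw [inv_mul_le_iff₀ hN, mul_one]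
      exact h1
  have hbd : ∀ l a, IsBoundedUnder (· ≤ ·) atTop (x l a) := fun l a =>
    isBoundedUnder_of ⟨1, hx1 l a⟩
  obtain ⟨δ, hδ⟩ : ∃ δ : (l : ℕ) → Fin (p l) → ℝ, δ = fun l a => limsup (x l a) atTop := ⟨_, rfl⟩
  have hδ0 : ∀ l a, 0 ≤ δ l a := by
    intro l a
    rw [hδ]
    exact le_limsup_of_frequently_le (Frequently.of_forall (hx0 l a)) (hbd l a)
  have hdens' : ∀ l ∈ Λ, ∑ a, δ l a ≤ (b:ℝ) ^ (d * l) := by
    intro l hl
    rw [hδ, hx]
    exact hdens l hl
  have hb0 : (0 : ℝ) < b := by exact_mod_cast (by omega : 0 < b)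
  -- the sum
  obtain ⟨F, hF⟩ : ∃ F : ℕ → ℝ → ℝ≥0∞, F = fun l t => if l ∈ Λ then
    ∑ a, ENNReal.ofReal (l * δ l a) * (E l a).indicator 1 t else 0 := ⟨_, rfl⟩
  have hFm : ∀ l, Measurable (F l) := by
    intro l
    rw [hF]
    simp only
    split_ifs with hl
    · exact Finset.measurable_sum _ fun a _ => (measurable_one.indicator (hE l a)).const_mul _
    · exact measurable_const
  have hFi : ∀ l, ∫⁻ t, F l t ≤ ENNReal.ofReal (|C| * ((l : ℝ) ^ 1 * ((b : ℝ)⁻¹) ^ l)) := by
    intro l
    by_cases hl : l ∈ Λ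
    · have e1 : ∀ t, F l t = ∑ a, ENNReal.ofReal (l * δ l a) * (E l a).indicator 1 t := by
        intro t
        rw [hF]
        simp only
        rw [if_pos hl]
      simp only [e1]
      rw [lintegral_finsetSum _ fun a _ => (measurable_one.indicator (hE l a)).const_mul _]
      have e2 : ∀ a, ∫⁻ t, ENNReal.ofReal (l * δ l a) * (E l a).indicator 1 t =
          ENNReal.ofReal (l * δ l a) * volume (E l a) := by
        intro a
        rw [lintegral_const_mul _ (measurable_one.indicator (hE l a)),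
          lintegral_indicator_one (hE l a)]
      simp only [e2]
      have h1 : ∀ a, ENNReal.ofReal (l * δ l a) * volume (E l a) ≤
          ENNReal.ofReal ((l * δ l a) * (|C| * ((b:ℝ) ^ ((d + 1) * l))⁻¹)) := by
        intro a
        have h2 : 0 ≤ (l : ℝ) * δ l a := mul_nonneg (Nat.cast_nonneg _) (hδ0 l a)
        rw [ENNReal.ofReal_mul h2]
        gcongr
        refine (hvol l hl a).trans (ENNReal.ofReal_le_ofReal ?_)
        exact mul_le_mul_of_nonneg_right (le_abs_self C) (by positivity)
      refine (sum_le_sum fun a _ => h1 a).trans ?_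
      rw [← ENNReal.ofReal_sum_of_nonneg]
      · apply ENNReal.ofReal_le_ofReal
        have h3 : ∑ a, (l * δ l a) * (|C| * ((b:ℝ) ^ ((d + 1) * l))⁻¹) =
            (l * (|C| * ((b:ℝ) ^ ((d + 1) * l))⁻¹)) * ∑ a, δ l a := by
          rw [mul_sum]
          exact sum_congr rfl fun a _ => by ring
        rw [h3]
        calc (l * (|C| * ((b:ℝ) ^ ((d + 1) * l))⁻¹)) * ∑ a, δ l a
            ≤ (l * (|C| * ((b:ℝ) ^ ((d + 1) * l))⁻¹)) * (b:ℝ) ^ (d * l) :=
              mul_le_mul_of_nonneg_left (hdens' l hl) (by positivity)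
          _ = |C| * ((l : ℝ) ^ 1 * ((b : ℝ)⁻¹) ^ l) := by
              rw [show (d + 1) * l = d * l + l by ring, pow_add, inv_pow, pow_one]
              field_simp
      · intro a _
        have h2 := hδ0 l a
        positivity
    · have e1 : ∀ t, F l t = 0 := by
        intro t
        rw [hF]
        simp only
        rw [if_neg hl]
      simp [e1]
  have hsum : Summable fun l : ℕ => |C| * ((l : ℝ) ^ 1 * ((b : ℝ)⁻¹) ^ l) := by
    apply Summable.mul_left
    apply summable_pow_mul_geometric_of_norm_lt_one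
    rw [norm_inv, Real.norm_natCast]
    apply inv_lt_one_of_one_lt₀
    exact_mod_cast (by omega : 1 < b)
  have hfin : ∫⁻ t, ∑' l, F l t ≠ ∞ := by
    rw [lintegral_tsum fun l => (hFm l).aemeasurable]
    apply ne_top_of_le_ne_top _ (ENNReal.tsum_le_tsum hFi)
    rw [← ENNReal.ofReal_tsum_of_nonneg (fun l => by positivity) hsum]
    exact ENNReal.ofReal_ne_top
  have hae := ae_lt_top (Measurable.tsum hFm) hfin
  filter_upwards [hae] with t ht
  intro ε hε
  have h1 := ENNReal.tendsto_sum_nat_add (fun l => F l t) ht.ne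
  have h2 : ∀ᶠ l0 in atTop, ∑' k, F (k + l0) t < ENNReal.ofReal (ε / 2) :=
    h1.eventually_lt_const (ENNReal.ofReal_pos.2 (half_pos hε))
  filter_upwards [h2] with l0 hl0
  intro L
  obtain ⟨G, hG⟩ : ∃ G : ℕ → ℝ, G = fun l => if l ∈ Λ then
    ∑ a, (l * δ l a) * (if t ∈ E l a then 1 else 0) else 0 := ⟨_, rfl⟩
  have hG0 : ∀ l, 0 ≤ G l := by
    intro l
    rw [hG]
    simp only
    split_ifs
    · apply sum_nonneg
      intro a _
      have := hδ0 l a
      positivity
    · exact le_rfl
  have hGF : ∀ l, ENNReal.ofReal (G l) = F l t := by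
    intro l
    rw [hG, hF]
    simp only
    split_ifs with hl
    · rw [ENNReal.ofReal_sum_of_nonneg fun a _ => by have := hδ0 l a; positivity]
      apply sum_congr rfl
      intro a _
      have := hδ0 l a
      rw [ENNReal.ofReal_mul (by positivity)]
      congr 1
      by_cases h : t ∈ E l a
      · rw [if_pos h, Set.indicator_of_mem h]; simp
      · rw [if_neg h, Set.indicator_of_notMem h]; simp
    · simp
  have hGs : ∑ l ∈ Icc l0 L, G l ≤ ε / 2 := by
    have h3 : ENNReal.ofReal (∑ l ∈ Icc l0 L, G l) ≤ ENNReal.ofReal (ε / 2) := by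
      rw [ENNReal.ofReal_sum_of_nonneg fun l _ => hG0 l]
      refine le_trans ?_ hl0.le
      simp only [hGF]
      calc ∑ l ∈ Icc l0 L, F l t = ∑ k ∈ (Icc l0 L).image (fun l => l - l0), F (k + l0) t := by
            rw [sum_image]
            · apply sum_congr rfl
              intro l hl
              rw [Nat.sub_add_cancel (mem_Icc.1 hl).1]
            · intro l hl l' hl' h
              have h5 := (mem_Icc.1 (mem_coe.1 hl)).1
              have h6 := (mem_Icc.1 (mem_coe.1 hl')).1
              simp only at h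
              omega
        _ ≤ _ := ENNReal.sum_le_tsum _
    exact (ENNReal.ofReal_le_ofReal_iff (by positivity)).1 h3
  obtain ⟨S, hS⟩ : ∃ S : ℝ, S = ∑ l ∈ Icc l0 L, (l : ℝ) * p l := ⟨_, rfl⟩
  have hS0 : 0 ≤ S := by rw [hS]; positivity
  obtain ⟨η, hη⟩ : ∃ η : ℝ, η = ε / (2 * (S + 1)) := ⟨_, rfl⟩
  have hη0 : 0 < η := by rw [hη]; positivity
  have hev : ∀ᶠ N in atTop, ∀ l ∈ Icc l0 L, ∀ a : Fin (p l), x l a N < δ l a + η := by
    rw [Filter.eventually_all_finset]
    intro l _
    rw [eventually_all]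
    intro a
    refine eventually_lt_of_limsup_lt ?_ (hbd l a)
    rw [hδ]
    exact lt_add_of_pos_right _ hη0
  filter_upwards [hev, eventually_gt_atTop 0] with N hN hN0
  have hNr : (0 : ℝ) < N := by exact_mod_cast hN0
  rw [sum_comm]
  have hl : ∀ l ∈ Icc l0 L, ∑ k ∈ range N, (if l ∈ Λ ∧ t ∈ E l (col l k) then (l:ℝ) else 0) ≤
      N * (G l + η * (l * p l)) := by
    intro l hl
    by_cases hΛ : l ∈ Λ
    · rw [← sum_fiberwise (range N) (col l)]
      have e1 : ∀ a : Fin (p l), ∑ k ∈ (range N).filter (fun k => col l k = a),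
          (if l ∈ Λ ∧ t ∈ E l (col l k) then (l:ℝ) else 0) =
          (N * x l a N) * (if t ∈ E l a then (l : ℝ) else 0) := by
        intro a
        have e2 : ∀ k ∈ (range N).filter (fun k => col l k = a),
            (if l ∈ Λ ∧ t ∈ E l (col l k) then (l:ℝ) else 0) =
            (if t ∈ E l a then (l : ℝ) else 0) := by
          intro k hk
          rw [(mem_filter.1 hk).2]
          simp [hΛ]
        rw [sum_congr rfl e2, sum_const, nsmul_eq_mul, hx]
        simp only
        rw [mul_inv_cancel_left₀ hNr.ne']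
      rw [sum_congr rfl fun a _ => e1 a]
      have e3 : G l = ∑ a, (l * δ l a) * (if t ∈ E l a then 1 else 0) := by
        rw [hG]
        simp only
        rw [if_pos hΛ]
      have e4 : (l : ℝ) * p l = ∑ a : Fin (p l), (l : ℝ) := by
        rw [sum_const, card_univ, Fintype.card_fin, nsmul_eq_mul, mul_comm]
      rw [e3, e4, mul_sum, ← sum_add_distrib, mul_sum]
      apply sum_le_sum
      intro a _
      have h5 := (hN l hl a).le
      have h6 := hδ0 l a
      by_cases h : t ∈ E l a
      · rw [if_pos h, if_pos h, mul_one]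
        calc (N * x l a N) * (l : ℝ) ≤ (N * (δ l a + η)) * l := by gcongr
          _ = _ := by ring
      · rw [if_neg h, if_neg h, mul_zero, mul_zero, zero_add]
        positivity
    · have e1 : ∀ k ∈ range N, (if l ∈ Λ ∧ t ∈ E l (col l k) then (l:ℝ) else 0) = 0 := by
        intro k _
        simp [hΛ]
      rw [sum_congr rfl e1, sum_const_zero]
      have := hG0 l
      positivity
  refine (sum_le_sum hl).trans ?_
  rw [← mul_sum, sum_add_distrib, ← mul_sum, ← hS]
  have h7 : η * S ≤ ε / 2 := by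
    rw [hη, div_mul_eq_mul_div, div_le_div_iff₀ (by positivity) (by norm_num)]
    nlinarith
  calc (N : ℝ) * (∑ l ∈ Icc l0 L, G l + η * S) ≤ N * (ε / 2 + ε / 2) :=
        mul_le_mul_of_nonneg_left (add_le_add hGs h7) hNr.le
    _ = ε * N := by ring

end Pool.Agent.V7H33.HF
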